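import Pool.Agent.R686.JT

set_option autoImplicit false

/-!
# The Jordan type never strictly dominates the contiguous partition

Let `A` be a local commutative algebra of finite dimension over a field `k`, with maximal ideal
`𝔪` (this includes every local Artinian Gorenstein quotient of a power series ring over `k`), and
let `l ∈ 𝔪` (this includes every linear form). Then the Jordan type of the multiplication by `l`
on `A` is not strictly larger, in the dominance order, than the contiguous partition of the Hilbert
function `i ↦ dim 𝔪 ^ i / 𝔪 ^ (i + 1)` of `A`.

(The Jordan type of a nilpotent endomorphism exists: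
`Pool.Agent.R686.JT.exists_isJordanType`.)
-/

universe u v

namespace Pool.Agent.Results.MP_728180_al.NoStrictDominance

open Pool.Agent.R686.JT

theorem result (k : Type u) [Field k] (A : Type v) [CommRing A] [Algebra k A] [IsLocalRing A]
    [Module.Finite k A] (l : A) (hl : l ∈ IsLocalRing.maximalIdeal A) (P : Multiset ℕ)
    (hP : IsJordanType k (LinearMap.mulLeft k l) P) :
    ¬ StrictlyDominates P (contiguous (hilb k A)) :=
  fun h => h.2 (main hl hP h.1).2

end Pool.Agent.Results.MP_728180_al.NoStrictDominance
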